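import Pool.Agent.TH871.Sz.Main

/-! Semistable elliptic curves of large Szpiro ratio, with the explicit constant. -/

open Finset Nat Filter Topology

namespace Pool.Agent.TH871.Sz

open Pool.Agent.H390R2 Pool.Agent.TH871.L1

/-- For every `K ≤ 6.84` -/
theorem curves {K : ℝ} (hK0 : 0 ≤ K) (hK : K ≤ 171 / 25) (X0 : ℝ) :
    ∃ W : WeierstrassCurve ℤ, W.Δ ≠ 0 ∧ IsCoprime W.c₄ W.Δ ∧ X0 < Real.log (cond W) ∧
      K * √(Real.log (cond W)) / Real.log (Real.log (cond W)) <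
        (Real.log |(W.Δ : ℝ)| - 6 * Real.log (cond W)) / 6 := by
  obtain ⟨st, hst⟩ := G5.data.exists_state
  have hb := G5.bound
  rw [← hst] at hb
  have hκ : 0 < st.κ := by
    rw [hst, G5.val_P]
    positivity
  set κ := st.κ with hκd
  have hK' : K ^ 2 * κ * Real.exp 1 < 32 := by
    refine lt_of_le_of_lt ?_ hb
    have := Real.exp_pos 1
    gcongr
  have hc1 : Continuous (fun ε : ℝ =>
      K ^ 2 * (1 + 2 * ε) * Real.exp ε * ((κ + ε) * Real.exp 2 / 2)) := by fun_prop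
  have hc2 : Continuous (fun ε : ℝ => (2 - ε) ^ 4 * Real.exp 1 * (1 - ε)) := by fun_prop
  have hlt : ∀ᶠ ε : ℝ in 𝓝 0,
      K ^ 2 * (1 + 2 * ε) * Real.exp ε * ((κ + ε) * Real.exp 2 / 2) <
      (2 - ε) ^ 4 * Real.exp 1 * (1 - ε) := by
    refine (hc1.tendsto 0).eventually_lt (hc2.tendsto 0) ?_
    simp only [mul_zero, add_zero, mul_one, sub_zero, Real.exp_zero]
    have h1 : Real.exp 2 = Real.exp 1 * Real.exp 1 := by rw [← Real.exp_add]; norm_num
    have h2 : 0 < Real.exp 1 := Real.exp_pos 1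
    rw [h1]
    nlinarith
  obtain ⟨δ, hδ0, hδ⟩ := Metric.eventually_nhds_iff.mp hlt
  set ε := min (δ / 2) (1 / 4) with hε
  have hε0 : 0 < ε := by positivity
  refine szpiro hε0 (min_le_right _ _) hK0 (κ := κ + ε) (by positivity) (relation st hε0)
    (hδ ?_).le X0
  rw [Real.dist_eq, sub_zero, abs_of_pos hε0]
  exact lt_of_le_of_lt (min_le_left _ _) (by linarith)

end Pool.Agent.TH871.Sz
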