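import Mathlib

/-! Semistable Frey curves attached to two odd coprime integers congruent modulo `2 ^ k`. -/

open Finset

namespace Pool.Agent.TH871.Sz

/-- the curve -/
def frey (a b : ℤ) : WeierstrassCurve ℤ := ⟨1, 4 * b - a, 0, -((4 * a - 1) * b), 0⟩

lemma frey_disc (a b : ℤ) : (frey a b).Δ = (4 * a - 1) ^ 2 * b ^ 2 * (4 * a - 1 + 16 * b) ^ 2 := by
  simp only [frey, WeierstrassCurve.Δ, WeierstrassCurve.b₂, WeierstrassCurve.b₄,
    WeierstrassCurve.b₆, WeierstrassCurve.b₈]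
  ring

lemma frey_c4 (a b : ℤ) : (frey a b).c₄ = (4 * a - 1) ^ 2 + (4 * a - 1) * (16 * b) + (16 * b) ^ 2 := by
  simp only [frey, WeierstrassCurve.c₄, WeierstrassCurve.b₂, WeierstrassCurve.b₄]
  ring

lemma coprime_c4 {A B : ℤ} (h : IsCoprime A B) :
    IsCoprime (A ^ 2 + A * B + B ^ 2) (A * B * (A + B)) := by
  have h1 : IsCoprime (A ^ 2 + A * B + B ^ 2) A := by
    have : IsCoprime (B ^ 2) A := (h.symm.pow_left)
    have h2 := this.add_mul_right_left (A + B)
    convert! h2 using 1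
    ring
  have h2 : IsCoprime (A ^ 2 + A * B + B ^ 2) B := by
    have : IsCoprime (A ^ 2) B := h.pow_left
    have h2 := this.add_mul_right_left (A + B)
    convert! h2 using 1
    ring
  have h3 : IsCoprime (A ^ 2 + A * B + B ^ 2) (A + B) := by
    have h4 : IsCoprime A (A + B) := by
      have := h.add_mul_left_right 1
      convert! this using 1
      ring
    have h5 : IsCoprime (A ^ 2) (A + B) := h4.pow_left
    have h6 := h5.add_mul_right_left B
    convert! h6 using 1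
    ring
  exact (h1.mul_right h2).mul_right h3

/-- the Frey curve of a pair `P ≡ Q mod 2 ^ k` -/
theorem exists_frey {P Q k : ℕ} (hk : 5 ≤ k) (hP : ¬ 2 ∣ P) (hcop : Nat.Coprime P Q)
    (hne : P ≠ Q) (hPQ : (2 : ℤ) ^ k ∣ (P : ℤ) - Q) (hP0 : 0 < P) (hQ0 : 0 < Q) :
    ∃ W : WeierstrassCurve ℤ, W.Δ ≠ 0 ∧ IsCoprime W.c₄ W.Δ ∧
      256 * W.Δ = ((P : ℤ) * Q * (P - Q)) ^ 2 ∧
      W.Δ.natAbs.primeFactors = (P * Q * ((P : ℤ) - Q).natAbs).primeFactors := by
  -- the sign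
  obtain ⟨η, hη, a, ha⟩ : ∃ η : ℤ, (η = 1 ∨ η = -1) ∧ ∃ a : ℤ, η * P = 4 * a - 1 := by
    have h4 : (P : ℤ) % 4 = 1 ∨ (P : ℤ) % 4 = 3 := by omega
    rcases h4 with h4 | h4
    · exact ⟨-1, Or.inr rfl, -(P : ℤ) / 4 + 1, by omega⟩
    · exact ⟨1, Or.inl rfl, ((P : ℤ) + 1) / 4, by omega⟩
  have hη2 : η * η = 1 := by rcases hη with rfl | rfl <;> norm_num
  obtain ⟨t, ht⟩ := hPQ
  obtain ⟨j, rfl⟩ : ∃ j, k = j + 5 := ⟨k - 5, by omega⟩
  set b : ℤ := -(η * (2 * 2 ^ j * t)) with hb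
  have hB : η * Q - η * P = 16 * b := by
    have : (P : ℤ) - Q = 16 * (2 * 2 ^ j * t) := by rw [ht]; ring
    rw [hb]
    linear_combination (-η) * this
  have hA : η * P = 4 * a - 1 := ha
  have hC : 4 * a - 1 + 16 * b = η * Q := by rw [← hA, ← hB]; ring
  have hPz : (P : ℤ) ≠ 0 := by exact_mod_cast hP0.ne'
  have hQz : (Q : ℤ) ≠ 0 := by exact_mod_cast hQ0.ne'
  have hPQz : (P : ℤ) - Q ≠ 0 := by
    intro h
    apply hne
    have := sub_eq_zero.mp h
    exact_mod_cast this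
  have hη0 : η ≠ 0 := by rcases hη with rfl | rfl <;> norm_num
  have hb0 : b ≠ 0 := by
    intro h
    rw [h, mul_zero, ← mul_sub] at hB
    rcases mul_eq_zero.mp hB with h1 | h1
    · exact hη0 h1
    · apply hPQz; linarith
  have hdisc : 256 * (frey a b).Δ = ((P : ℤ) * Q * (P - Q)) ^ 2 := by
    rw [frey_disc, hC, ← hA]
    have e1 : 256 * ((η * P) ^ 2 * b ^ 2 * (η * Q) ^ 2) = (η * η) ^ 2 * (P : ℤ) ^ 2 * Q ^ 2 *
        (16 * b) ^ 2 := by ring
    rw [e1, ← hB]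
    have e2 : (η * η) ^ 2 * (P : ℤ) ^ 2 * Q ^ 2 * (η * Q - η * P) ^ 2 =
        (η * η) ^ 3 * ((P : ℤ) * Q * (P - Q)) ^ 2 := by ring
    rw [e2, hη2]; ring
  have hΔ0 : (frey a b).Δ ≠ 0 := by
    intro h
    rw [h, mul_zero] at hdisc
    have := pow_ne_zero 2 (mul_ne_zero (mul_ne_zero hPz hQz) hPQz)
    exact this hdisc.symm
  have hcopz : IsCoprime (P : ℤ) (Q : ℤ) := Nat.isCoprime_iff_coprime.mpr hcop
  have hAB : IsCoprime (4 * a - 1) (16 * b) := by
    rw [← hA, ← hB]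
    have h1 : IsCoprime (P : ℤ) ((Q : ℤ) - P) := by
      have := hcopz.add_mul_left_right (-1)
      convert! this using 1
      ring
    have hu : IsUnit η := by rcases hη with rfl | rfl <;> simp
    have e : η * (Q : ℤ) - η * P = η * (Q - P) := by ring
    rw [e]
    exact (isCoprime_mul_unit_left hu _ _).mpr h1
  refine ⟨frey a b, hΔ0, ?_, hdisc, ?_⟩
  · have h1 := coprime_c4 hAB
    rw [← frey_c4] at h1
    have h2 : IsCoprime (frey a b).c₄ (((4 * a - 1) * (16 * b) * (4 * a - 1 + 16 * b)) ^ 2) :=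
      h1.pow_right
    refine h2.of_isCoprime_of_dvd_right ?_
    rw [frey_disc]
    exact ⟨256, by ring⟩
  · -- prime factors
    have h1 : (frey a b).Δ.natAbs = (P * Q * b.natAbs) ^ 2 := by
      rw [frey_disc, hC, ← hA]
      have hηn : η.natAbs = 1 := by rcases hη with rfl | rfl <;> rfl
      rw [Int.natAbs_mul, Int.natAbs_mul, Int.natAbs_pow, Int.natAbs_pow, Int.natAbs_pow,
        Int.natAbs_mul, Int.natAbs_mul, hηn, Int.natAbs_natCast, Int.natAbs_natCast]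
      ring
    have h2 : ((P : ℤ) - Q).natAbs = 16 * b.natAbs := by
      have e1 : η * Q - η * P = -(η * ((P : ℤ) - Q)) := by ring
      have e2 := congrArg Int.natAbs hB
      rw [e1, Int.natAbs_neg, Int.natAbs_mul, Int.natAbs_mul] at e2
      have hηn : η.natAbs = 1 := by rcases hη with rfl | rfl <;> rfl
      rw [hηn, one_mul] at e2
      exact e2
    have hbn : b.natAbs ≠ 0 := Int.natAbs_ne_zero.mpr hb0
    have h3 : 2 ∣ b.natAbs := by
      rw [← Int.natCast_dvd_natCast, Int.dvd_natAbs]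
      exact ⟨-(η * (2 ^ j * t)), by rw [hb]; push_cast; ring⟩
    rw [h1, h2, Nat.primeFactors_pow _ two_ne_zero]
    have h4 : P * Q * (16 * b.natAbs) = 2 ^ 4 * (P * Q * b.natAbs) := by ring
    have h5 : P * Q * b.natAbs ≠ 0 := mul_ne_zero (mul_ne_zero hP0.ne' hQ0.ne') hbn
    rw [h4, Nat.primeFactors_mul (by norm_num) h5, Nat.primeFactors_prime_pow (by norm_num)
      Nat.prime_two]
    symm
    rw [Finset.union_eq_right, Finset.singleton_subset_iff]
    exact Nat.mem_primeFactors.mpr ⟨Nat.prime_two, h3.mul_left _, h5⟩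

end Pool.Agent.TH871.Sz
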