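import Pool.Agent.H390R2.Asym

/-!
From short relations in a finite abelian group to two odd smooth numbers of about the same size
which are congruent modulo a high power of two.
-/

open Finset Nat

namespace Pool.Agent.TH871.Sz

open Pool.Agent.H390R2

/-- the unit attached to an odd number -/
noncomputable def un (k p : ℕ) : (ZMod (2 ^ k))ˣ :=
  if h : p.Coprime (2 ^ k) then ZMod.unitOfCoprime p h else 1

lemma un_val {k p : ℕ} (hp : p.Prime) (h2 : p ≠ 2) : ((un k p : (ZMod (2 ^ k))ˣ) : ZMod (2 ^ k)) = p := by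
  have h : p.Coprime (2 ^ k) := by
    refine Nat.Coprime.pow_right _ ?_
    rwa [Nat.coprime_primes hp Nat.prime_two]
  unfold un
  rw [dif_pos h, ZMod.coe_unitOfCoprime]

/-- the group -/
abbrev GG (k M : ℕ) : Type := Additive (ZMod (2 ^ k))ˣ × (ZMod M × ZMod M)

lemma card_units_two {k : ℕ} (hk : 1 ≤ k) : Fintype.card (ZMod (2 ^ k))ˣ = 2 ^ (k - 1) := by
  have : NeZero (2 ^ k) := ⟨by positivity⟩
  rw [ZMod.card_units_eq_totient, Nat.totient_prime_pow Nat.prime_two hk]
  simp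

lemma card_GG {k M : ℕ} [NeZero M] (hk : 1 ≤ k) : Fintype.card (GG k M) = 2 ^ (k - 1) * (M * M) := by
  have : NeZero (2 ^ k) := ⟨by positivity⟩
  rw [Fintype.card_prod, Fintype.card_prod, ZMod.card, Fintype.card_additive, card_units_two hk]

variable {m : ℕ}

lemma log_num_add (e : {p // p ∈ primesLE m} → ℤ) :
    ∑ p : {p // p ∈ primesLE m}, |(e p : ℝ)| * Real.log (p : ℕ) =
      Real.log (num e) + Real.log (num (-e)) := by
  rw [log_num e, log_num (-e), ← Finset.sum_add_distrib]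
  refine Finset.sum_congr rfl fun p _ => ?_
  rw [← add_mul]
  congr 1
  have : |e p| = ((e p).toNat : ℤ) + ((-e) p).toNat := by
    simp only [Pi.neg_apply]
    rcases abs_cases (e p) with h | h <;> omega
  exact_mod_cast congrArg (fun z : ℤ => (z : ℝ)) this

lemma log_num_sub (e : {p // p ∈ primesLE m} → ℤ) :
    ∑ p : {p // p ∈ primesLE m}, (e p : ℝ) * Real.log (p : ℕ) =
      Real.log (num e) - Real.log (num (-e)) := by
  rw [log_num e, log_num (-e), ← Finset.sum_sub_distrib]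
  refine Finset.sum_congr rfl fun p _ => ?_
  rw [← sub_mul]
  congr 1
  have : (e p) = ((e p).toNat : ℤ) - ((-e) p).toNat := by
    simp only [Pi.neg_apply]; omega
  exact_mod_cast congrArg (fun z : ℤ => (z : ℝ)) this

/-- the congruence between numerator and denominator -/
lemma num_congr {k : ℕ} (e : {p // p ∈ primesLE m} → ℤ)
    (h2 : ∀ p : {p // p ∈ primesLE m}, (p : ℕ) = 2 → e p = 0)
    (he : ∑ p, e p • Additive.ofMul (un k (p : ℕ)) = 0) : (2 : ℤ) ^ k ∣ (num e : ℤ) - num (-e) := by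
  have h1 : ∏ p : {p // p ∈ primesLE m}, (un k (p : ℕ)) ^ (e p) = 1 := by
    have : Additive.ofMul (∏ p : {p // p ∈ primesLE m}, (un k (p : ℕ)) ^ (e p)) = 0 := by
      rw [ofMul_prod, ← he]
      exact Finset.sum_congr rfl fun p _ => ofMul_zpow _ _
    exact this
  have h3 : ∏ p : {p // p ∈ primesLE m}, (un k (p : ℕ)) ^ ((e p).toNat) =
      ∏ p : {p // p ∈ primesLE m}, (un k (p : ℕ)) ^ (((-e) p).toNat) := by
    rw [← div_eq_one, ← Finset.prod_div_distrib, ← h1]
    refine Finset.prod_congr rfl fun p _ => ?_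
    rw [← zpow_natCast, ← zpow_natCast, div_eq_mul_inv, ← zpow_sub]
    congr 1
    simp only [Pi.neg_apply]; omega
  have h4 : ∀ (f : {p // p ∈ primesLE m} → ℤ), (∀ p : {p // p ∈ primesLE m}, (p : ℕ) = 2 → f p = 0) →
      ((num f : ℕ) : ZMod (2 ^ k)) =
        ((∏ p : {p // p ∈ primesLE m}, (un k (p : ℕ)) ^ ((f p).toNat) : (ZMod (2 ^ k))ˣ) :
          ZMod (2 ^ k)) := by
    intro f hf
    unfold num
    rw [Nat.cast_prod, Units.coe_prod]
    refine Finset.prod_congr rfl fun p _ => ?_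
    rw [Nat.cast_pow, Units.val_pow_eq_pow_val]
    by_cases hp : (p : ℕ) = 2
    · rw [hf p hp]; simp
    · rw [un_val (prime_of_mem_primesLE p.2) hp]
  have h5 : ((num e : ℕ) : ZMod (2 ^ k)) = ((num (-e) : ℕ) : ZMod (2 ^ k)) := by
    rw [h4 e h2, h4 (-e) (fun p hp => by simp [h2 p hp]), h3]
  have h6 : (((num e : ℤ) - num (-e) : ℤ) : ZMod (2 ^ k)) = 0 := by
    push_cast
    rw [h5, sub_self]
  rw [ZMod.intCast_zmod_eq_zero_iff_dvd] at h6
  exact_mod_cast h6

lemma num_odd (e : {p // p ∈ primesLE m} → ℤ)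
    (h2 : ∀ p : {p // p ∈ primesLE m}, (p : ℕ) = 2 → e p = 0) : ¬ 2 ∣ num e := by
  intro h
  unfold num at h
  rw [Prime.dvd_finsetProd_iff Nat.prime_two.prime] at h
  obtain ⟨p, _, hp⟩ := h
  have h1 := Nat.prime_two.dvd_of_dvd_pow hp
  have h3 := (Nat.prime_dvd_prime_iff_eq Nat.prime_two (prime_of_mem_primesLE p.2)).mp h1
  rw [h2 p h3.symm, Int.toNat_zero, pow_zero] at hp
  norm_num at hp

/-- From short relations to pairs of integers. -/
theorem exists_pair {k M : ℕ} {lam : ℝ} (hM : 0 < M) (hlam : 1 ≤ lam)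
    (hMl : 2 * lam ^ 2 < M)
    (hrel : ∀ w : {p // p ∈ primesLE m} → GG k M, ∃ e : {p // p ∈ primesLE m} → ℤ, e ≠ 0 ∧
      ∑ i, e i • w i = 0 ∧ ∑ i : {p // p ∈ primesLE m}, |(e i : ℝ)| * Real.log (i : ℕ) ≤ lam) :
    ∃ P Q : ℕ, 0 < P ∧ 0 < Q ∧ P ≠ Q ∧ Nat.Coprime P Q ∧ ¬ 2 ∣ P ∧ (2 : ℤ) ^ k ∣ (P : ℤ) - Q ∧
      P.primeFactors ⊆ primesLE m ∧ Q.primeFactors ⊆ primesLE m ∧
      Real.log P + Real.log Q ≤ lam ∧ |Real.log P - Real.log Q| ≤ 1 := by
  have hl2 : (0 : ℝ) < Real.log 2 := Real.log_pos one_lt_two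
  have hl2' : (0.69 : ℝ) < Real.log 2 := by linarith [Real.log_two_gt_d9]
  have hlam0 : 0 < lam := by linarith
  have hM' : (0 : ℝ) < M := by exact_mod_cast hM
  have hlogp : ∀ p : {p // p ∈ primesLE m}, Real.log 2 ≤ Real.log (p : ℕ) := fun p =>
    Real.log_le_log two_pos (by exact_mod_cast two_le_of_mem_primesLE p.2)
  set A : ℝ := 2 * lam with hA
  have hA0 : 0 < A := by positivity
  obtain ⟨e, he, hdvd, hsum⟩ := hrel fun p => (Additive.ofMul (un k (p : ℕ)),
    (((⌊A * Real.log (p : ℕ)⌋ : ℤ) : ZMod M), if (p : ℕ) = 2 then 1 else 0))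
  -- the three components
  have c1 : ∑ p, e p • Additive.ofMul (un k (p : ℕ)) = 0 := by
    have := congrArg Prod.fst hdvd
    rw [Prod.fst_sum] at this
    exact this
  have c23 := congrArg Prod.snd hdvd
  rw [Prod.snd_sum] at c23
  have c2 : ∑ p : {p // p ∈ primesLE m}, e p • ((⌊A * Real.log (p : ℕ)⌋ : ℤ) : ZMod M) = 0 := by
    have := congrArg Prod.fst c23
    rw [Prod.fst_sum] at this
    exact this
  have c3 : ∑ p : {p // p ∈ primesLE m}, e p • (if (p : ℕ) = 2 then (1 : ZMod M) else 0) = 0 := by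
    have := congrArg Prod.snd c23
    rw [Prod.snd_sum] at this
    exact this
  -- bounds for the entries
  have hentries : ∑ p : {p // p ∈ primesLE m}, |(e p : ℝ)| ≤ 2 * lam := by
    have h1 : Real.log 2 * ∑ p : {p // p ∈ primesLE m}, |(e p : ℝ)| ≤ lam := by
      rw [Finset.mul_sum]
      refine le_trans (Finset.sum_le_sum fun p _ => ?_) hsum
      rw [mul_comm]
      exact mul_le_mul_of_nonneg_left (hlogp p) (abs_nonneg _)
    have h0 : 0 ≤ ∑ p : {p // p ∈ primesLE m}, |(e p : ℝ)| := Finset.sum_nonneg fun _ _ => abs_nonneg _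
    nlinarith
  -- the exponent of two vanishes
  have h2 : ∀ p : {p // p ∈ primesLE m}, (p : ℕ) = 2 → e p = 0 := by
    intro p hp
    have h1 : ∑ q : {p // p ∈ primesLE m}, e q • (if (q : ℕ) = 2 then (1 : ZMod M) else 0) =
        ((e p : ℤ) : ZMod M) := by
      rw [Finset.sum_eq_single p]
      · rw [if_pos hp]; simp
      · intro q _ hq
        have : (q : ℕ) ≠ 2 := by
          intro h
          apply hq
          exact Subtype.ext (h.trans hp.symm)
        rw [if_neg this, smul_zero]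
      · intro h; exact absurd (Finset.mem_univ p) h
    rw [h1, ZMod.intCast_zmod_eq_zero_iff_dvd] at c3
    refine Int.eq_zero_of_abs_lt_dvd c3 ?_
    have h3 : |(e p : ℝ)| ≤ 2 * lam :=
      (Finset.single_le_sum (f := fun p : {p // p ∈ primesLE m} => |(e p : ℝ)|)
        (fun _ _ => abs_nonneg _) (Finset.mem_univ p)).trans hentries
    have h4 : |(e p : ℝ)| < M := by
      refine lt_of_le_of_lt h3 (lt_of_le_of_lt ?_ hMl)
      nlinarith
    exact_mod_cast h4
  -- the linear form vanishes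
  have hW : ∀ p : {p // p ∈ primesLE m},
      |((⌊A * Real.log (p : ℕ)⌋ : ℤ) : ℝ)| ≤ A * Real.log (p : ℕ) := by
    intro p
    have h0 : 0 ≤ A * Real.log (p : ℕ) := by
      have h1 : 0 ≤ Real.log (p : ℕ) := by linarith [hlogp p]
      positivity
    rw [abs_of_nonneg (by exact_mod_cast Int.floor_nonneg.mpr h0)]
    exact Int.floor_le _
  have hzero : (∑ i : {p // p ∈ primesLE m}, e i * ⌊A * Real.log (i : ℕ)⌋ : ℤ) = 0 := by
    have h1 : ((∑ i : {p // p ∈ primesLE m}, e i * ⌊A * Real.log (i : ℕ)⌋ : ℤ) : ZMod M) = 0 := by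
      rw [← c2]
      push_cast
      exact Finset.sum_congr rfl fun p _ => by rw [zsmul_eq_mul]
    rw [ZMod.intCast_zmod_eq_zero_iff_dvd] at h1
    refine Int.eq_zero_of_abs_lt_dvd h1 ?_
    have h3 : |((∑ i : {p // p ∈ primesLE m}, e i * ⌊A * Real.log (i : ℕ)⌋ : ℤ) : ℝ)| < M := by
      push_cast
      calc |∑ i : {p // p ∈ primesLE m}, (e i : ℝ) * (⌊A * Real.log (i : ℕ)⌋ : ℝ)|
          ≤ ∑ i : {p // p ∈ primesLE m}, |(e i : ℝ) * (⌊A * Real.log (i : ℕ)⌋ : ℝ)| :=
            Finset.abs_sum_le_sum_abs _ _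
        _ ≤ ∑ i : {p // p ∈ primesLE m}, A * (|(e i : ℝ)| * Real.log (i : ℕ)) := by
            refine Finset.sum_le_sum fun i _ => ?_
            rw [abs_mul]
            have := mul_le_mul_of_nonneg_left (hW i) (abs_nonneg (e i : ℝ))
            linarith
        _ = A * ∑ i : {p // p ∈ primesLE m}, |(e i : ℝ)| * Real.log (i : ℕ) := by
            rw [Finset.mul_sum]
        _ ≤ A * lam := mul_le_mul_of_nonneg_left hsum hA0.le
        _ = 2 * lam ^ 2 := by rw [hA]; ring
        _ < M := hMl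
    exact_mod_cast h3
  have hlin : |∑ p : {p // p ∈ primesLE m}, (e p : ℝ) * Real.log (p : ℕ)| ≤ 1 := by
    set l : ℝ := ∑ p : {p // p ∈ primesLE m}, (e p : ℝ) * Real.log (p : ℕ) with hl
    have h1 : A * l = ∑ p : {p // p ∈ primesLE m},
        (A * Real.log (p : ℕ) - (⌊A * Real.log (p : ℕ)⌋ : ℤ)) * (e p : ℝ) := by
      have h2 : ∑ p : {p // p ∈ primesLE m}, ((⌊A * Real.log (p : ℕ)⌋ : ℤ) : ℝ) * (e p : ℝ) = 0 := by
        have := congrArg (fun z : ℤ => (z : ℝ)) hzero
        push_cast at this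
        rw [← this]
        exact Finset.sum_congr rfl fun p _ => by ring
      rw [hl, Finset.mul_sum]
      simp only [sub_mul]
      rw [Finset.sum_sub_distrib, h2, sub_zero]
      exact Finset.sum_congr rfl fun _ _ => by ring
    have h3 : A * |l| ≤ 2 * lam := by
      rw [← abs_of_pos hA0, ← abs_mul, h1]
      refine (Finset.abs_sum_le_sum_abs _ _).trans (le_trans (Finset.sum_le_sum fun p _ => ?_) hentries)
      rw [abs_mul]
      have h3 : |A * Real.log (p : ℕ) - (⌊A * Real.log (p : ℕ)⌋ : ℤ)| ≤ 1 := by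
        rw [abs_of_nonneg (by linarith [Int.floor_le (A * Real.log (p : ℕ))])]
        linarith [Int.lt_floor_add_one (A * Real.log (p : ℕ))]
      exact mul_le_of_le_one_left (abs_nonneg _) h3
    rw [hA] at h3
    nlinarith
  refine ⟨num e, num (-e), num_pos e, num_pos _, num_ne e he, num_coprime e, num_odd e h2,
    num_congr e h2 c1, num_primeFactors e, num_primeFactors _, ?_, ?_⟩
  · rw [← log_num_add]; exact hsum
  · rw [← log_num_sub]; exact hlin

end Pool.Agent.TH871.Sz
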