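import Pool.Agent.TH871.L1.Core
import Pool.Agent.TH871.Sz.Pair
import Pool.Agent.TH871.Sz.Frey
import Pool.Agent.TH867.BK.Height

/-! Semistable elliptic curves whose discriminant is large compared with the sixth power of the
conductor. -/

open Finset Nat Filter Topology

namespace Pool.Agent.TH871.Sz

open Pool.Agent.H390R2 Pool.Agent.TH871.L1

/-- the product of the primes of bad reduction -/
def cond (W : WeierstrassCurve ℤ) : ℕ := ∏ p ∈ W.Δ.natAbs.primeFactors, p

lemma cond_pos (W : WeierstrassCurve ℤ) : 0 < cond W :=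
  Finset.prod_pos fun _ hp => (Nat.prime_of_mem_primeFactors hp).pos

lemma rad_pos (n : ℕ) : 0 < rad n :=
  Finset.prod_pos fun _ hp => (Nat.prime_of_mem_primeFactors hp).pos

/-- lower bound for the conductor, from an explicit height bound for `a + b = c` -/
lemma height_lt {P Q : ℕ} (hP0 : 0 < P) (hPQ : P < Q) (hcop : Nat.Coprime P Q) :
    Real.log (Real.log Q) ≤ 3000 * (1 + Real.log (rad (P * Q * (Q - P)))) ^ 6 := by
  set t : Fin 3 → ℕ := ![min (Q - P) P, max (Q - P) P, Q] with ht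
  have hd : 0 < Q - P := by omega
  have hcd : Nat.Coprime (Q - P) P := (Nat.coprime_sub_self_left hPQ.le).mpr hcop.symm
  have hTr : Pool.Agent.TH867.SR.Tr t := by
    constructor
    · show 0 < min (Q - P) P
      exact lt_min hd hP0
    · show min (Q - P) P ≤ max (Q - P) P
      exact min_le_max
    · show Nat.Coprime (min (Q - P) P) (max (Q - P) P)
      rcases le_total (Q - P) P with h | h
      · rw [min_eq_left h, max_eq_right h]; exact hcd
      · rw [min_eq_right h, max_eq_left h]; exact hcd.symm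
    · show min (Q - P) P + max (Q - P) P = Q
      rw [min_add_max]; omega
  have hN3 : Pool.Agent.TH867.SR.N3 t = P * Q * (Q - P) := by
    show min (Q - P) P * max (Q - P) P * Q = _
    rw [min_mul_max]; ring
  have hsum := Pool.Agent.TH867.SR.rr_sum hTr
  rw [hN3] at hsum
  have hrad : ∑ q ∈ (P * Q * (Q - P)).primeFactors, Real.log q =
      Real.log (rad (P * Q * (Q - P))) := by
    unfold rad
    rw [Nat.cast_prod, Real.log_prod]
    intro q hq
    have := (Nat.prime_of_mem_primeFactors hq).pos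
    positivity
  rw [hrad] at hsum
  have h0 : 0 ≤ Real.log (rad (P * Q * (Q - P))) := Real.log_natCast_nonneg _
  have h1 := Pool.Agent.TH867.BK.height hTr (X := Real.exp (1 + Real.log (rad (P * Q * (Q - P)))))
    (Real.exp_pos _) (by rw [Real.log_exp]; linarith) (by rw [Real.log_exp, ← hsum]; linarith)
  rw [Real.log_exp] at h1
  exact h1

lemma height_ne {P Q : ℕ} (hP0 : 0 < P) (hQ0 : 0 < Q) (hne : P ≠ Q) (hcop : Nat.Coprime P Q) :
    Real.log (Real.log ((((P : ℤ) - Q).natAbs : ℕ) : ℝ)) ≤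
      3000 * (1 + Real.log (rad (P * Q * ((P : ℤ) - Q).natAbs))) ^ 6 := by
  have key : ∀ P Q : ℕ, 0 < P → P < Q → Nat.Coprime P Q →
      Real.log (Real.log ((Q - P : ℕ) : ℝ)) ≤ 3000 * (1 + Real.log (rad (P * Q * (Q - P)))) ^ 6 := by
    intro P Q hP hPQ hc
    have h1 := height_lt hP hPQ hc
    by_cases h2 : 1 < Real.log ((Q - P : ℕ) : ℝ)
    · refine le_trans (Real.log_le_log (by linarith) ?_) h1
      refine Real.log_le_log ?_ (by exact_mod_cast Nat.sub_le Q P)
      have : 0 < Q - P := by omega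
      exact_mod_cast this
    · push Not at h2
      have h3 : 0 ≤ Real.log ((Q - P : ℕ) : ℝ) := Real.log_natCast_nonneg _
      have h4 := Real.log_nonpos h3 h2
      refine h4.trans ?_
      have : 0 ≤ Real.log (rad (P * Q * (Q - P))) := Real.log_natCast_nonneg _
      positivity
  rcases lt_or_gt_of_ne hne with h | h
  · have e : ((P : ℤ) - Q).natAbs = Q - P := by omega
    rw [e]
    exact key P Q hP0 h hcop
  · have e : ((P : ℤ) - Q).natAbs = P - Q := by omega
    rw [e, mul_comm P Q]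
    exact key Q P hQ0 h hcop.symm

/-- upper bound for the radical -/
lemma rad_pair {P Q k m : ℕ} (hm : 2 ≤ m) (hP0 : 0 < P) (hQ0 : 0 < Q) (hne : P ≠ Q)
    (hPQ : (2 : ℤ) ^ k ∣ (P : ℤ) - Q) (hPp : P.primeFactors ⊆ primesLE m)
    (hQp : Q.primeFactors ⊆ primesLE m) :
    Real.log (rad (P * Q * ((P : ℤ) - Q).natAbs)) ≤ ∑ p ∈ primesLE m, Real.log p +
      Real.log (((P : ℤ) - Q).natAbs : ℕ) - k * Real.log 2 := by
  have hdvd : 2 ^ k ∣ ((P : ℤ) - Q).natAbs := by
    rw [← Int.natCast_dvd_natCast, Int.dvd_natAbs]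
    exact_mod_cast hPQ
  obtain ⟨t, ht⟩ := hdvd
  have hd0 : ((P : ℤ) - Q).natAbs ≠ 0 := by
    rw [Int.natAbs_ne_zero, sub_ne_zero]
    exact_mod_cast hne
  have ht0 : t ≠ 0 := by
    rintro rfl
    rw [mul_zero] at ht
    exact hd0 ht
  have h1 : (P * Q * ((P : ℤ) - Q).natAbs).primeFactors ⊆ t.primeFactors ∪ primesLE m := by
    rw [Nat.primeFactors_mul (mul_ne_zero hP0.ne' hQ0.ne') hd0,
      Nat.primeFactors_mul hP0.ne' hQ0.ne', ht, Nat.primeFactors_mul (by positivity) ht0]
    intro p hp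
    simp only [Finset.mem_union] at hp ⊢
    rcases hp with (hp | hp) | hp | hp
    · exact Or.inr (hPp hp)
    · exact Or.inr (hQp hp)
    · right
      have h2 : p ∣ 2 ^ k := Nat.dvd_of_mem_primeFactors hp
      have h3 := (Nat.prime_of_mem_primeFactors hp).dvd_of_dvd_pow h2
      have h4 := (Nat.prime_dvd_prime_iff_eq (Nat.prime_of_mem_primeFactors hp) Nat.prime_two).mp h3
      rw [h4, mem_primesLE]
      exact ⟨hm, Nat.prime_two⟩
    · exact Or.inl hp
  have hpos : ∀ p ∈ t.primeFactors ∪ primesLE m, 1 ≤ p := by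
    intro p hp
    rw [Finset.mem_union] at hp
    rcases hp with hp | hp
    · exact (Nat.prime_of_mem_primeFactors hp).one_le
    · exact (prime_of_mem_primesLE hp).one_le
  have h2 : rad (P * Q * ((P : ℤ) - Q).natAbs) ≤ t * ∏ p ∈ primesLE m, p := by
    unfold rad
    calc ∏ p ∈ (P * Q * ((P : ℤ) - Q).natAbs).primeFactors, p ≤ ∏ p ∈ t.primeFactors ∪ primesLE m, p :=
          Finset.prod_le_prod_of_subset_of_one_le' h1 fun p hp _ => hpos p hp
      _ ≤ (∏ p ∈ t.primeFactors, p) * ∏ p ∈ primesLE m, p := by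
          rw [← Finset.prod_union_inter]
          refine Nat.le_mul_of_pos_right _ (Finset.prod_pos fun p hp => ?_)
          exact (Nat.prime_of_mem_primeFactors (Finset.mem_inter.mp hp).1).pos
      _ ≤ t * ∏ p ∈ primesLE m, p := Nat.mul_le_mul_right _ (rad_le (Nat.pos_of_ne_zero ht0))
  have h3 : (rad (P * Q * ((P : ℤ) - Q).natAbs) : ℝ) ≤ t * ∏ p ∈ primesLE m, (p : ℝ) := by
    have : ((rad (P * Q * ((P : ℤ) - Q).natAbs) : ℕ) : ℝ) ≤ ((t * ∏ p ∈ primesLE m, p : ℕ) : ℝ) :=
      Nat.cast_le.mpr h2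
    rwa [Nat.cast_mul, Nat.cast_prod] at this
  have hr0 : (0 : ℝ) < rad (P * Q * ((P : ℤ) - Q).natAbs) := by exact_mod_cast rad_pos _
  have ht0' : (0 : ℝ) < t := by exact_mod_cast Nat.pos_of_ne_zero ht0
  have hprod : (0 : ℝ) < ∏ p ∈ primesLE m, (p : ℝ) :=
    Finset.prod_pos fun p hp => by exact_mod_cast (prime_of_mem_primesLE hp).pos
  have h4 := Real.log_le_log hr0 h3
  rw [Real.log_mul ht0'.ne' hprod.ne', Real.log_prod (fun p hp => by
    have : (0 : ℝ) < p := by exact_mod_cast (prime_of_mem_primesLE hp).pos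
    exact this.ne')] at h4
  have h5 : Real.log (((P : ℤ) - Q).natAbs : ℕ) = k * Real.log 2 + Real.log t := by
    rw [ht]
    push_cast
    rw [Real.log_mul (by positivity) ht0'.ne', Real.log_pow]
  rw [h5]
  linarith

/-- the curve attached to a pair -/
theorem curve {P Q k m : ℕ} {lam : ℝ} (hm : 2 ≤ m) (hk : 5 ≤ k) (hP0 : 0 < P) (hQ0 : 0 < Q)
    (hne : P ≠ Q) (hcop : Nat.Coprime P Q) (hP : ¬ 2 ∣ P) (hPQ : (2 : ℤ) ^ k ∣ (P : ℤ) - Q)
    (hPp : P.primeFactors ⊆ primesLE m) (hQp : Q.primeFactors ⊆ primesLE m)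
    (hsum : Real.log P + Real.log Q ≤ lam) (hdiff : |Real.log P - Real.log Q| ≤ 1)
    (hθ : ∑ p ∈ primesLE m, Real.log p ≤ k * Real.log 2) :
    ∃ W : WeierstrassCurve ℤ, W.Δ ≠ 0 ∧ IsCoprime W.c₄ W.Δ ∧
      Real.log (cond W) ≤ (lam + 1) / 2 ∧
      k * Real.log 2 - ∑ p ∈ primesLE m, Real.log p - 2 ≤
        (Real.log |(W.Δ : ℝ)| - 6 * Real.log (cond W)) / 6 ∧
      Real.log (k * Real.log 2) ≤ 3000 * (1 + Real.log (cond W)) ^ 6 := by
  obtain ⟨W, hΔ, hc, hdisc, hpf⟩ := exists_frey hk hP hcop hne hPQ hP0 hQ0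
  have hl2 : (0 : ℝ) < Real.log 2 := Real.log_pos one_lt_two
  have hl2' : Real.log 2 < 0.7 := by linarith [Real.log_two_lt_d9]
  set d : ℕ := ((P : ℤ) - Q).natAbs with hd
  have hd0 : d ≠ 0 := by
    rw [hd, Int.natAbs_ne_zero, sub_ne_zero]
    exact_mod_cast hne
  have hdR : (0 : ℝ) < d := by exact_mod_cast Nat.pos_of_ne_zero hd0
  have hPR : (0 : ℝ) < P := by exact_mod_cast hP0
  have hQR : (0 : ℝ) < Q := by exact_mod_cast hQ0
  have hcond : cond W = rad (P * Q * d) := by
    unfold cond rad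
    rw [hpf]
  have hrad := rad_pair hm hP0 hQ0 hne hPQ hPp hQp
  rw [← hd, ← hcond] at hrad
  -- the size of `d`
  have hdk : k * Real.log 2 ≤ Real.log d := by
    have h1 : 2 ^ k ∣ d := by
      rw [hd, ← Int.natCast_dvd_natCast, Int.dvd_natAbs]
      exact_mod_cast hPQ
    have h2 : 2 ^ k ≤ d := Nat.le_of_dvd (Nat.pos_of_ne_zero hd0) h1
    have h3 : ((2 : ℝ)) ^ k ≤ d := by exact_mod_cast h2
    have h4 := Real.log_le_log (by positivity) h3
    rwa [Real.log_pow] at h4
  have hdle : Real.log d ≤ (Real.log P + Real.log Q + 1) / 2 := by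
    obtain ⟨h1, h2⟩ := abs_le.mp hdiff
    rcases le_total P Q with h | h
    · have h3 : d ≤ Q := by omega
      have h4 : (d : ℝ) ≤ Q := by exact_mod_cast h3
      have := Real.log_le_log hdR h4
      linarith
    · have h3 : d ≤ P := by omega
      have h4 : (d : ℝ) ≤ P := by exact_mod_cast h3
      have := Real.log_le_log hdR h4
      linarith
  -- the discriminant
  have hΔlog : Real.log |(W.Δ : ℝ)| = 2 * (Real.log P + Real.log Q + Real.log d) - 8 * Real.log 2 := by
    have h1 : (256 : ℝ) * |(W.Δ : ℝ)| = ((P : ℝ) * Q * d) ^ 2 := by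
      have h2 := congrArg (fun z : ℤ => |(z : ℝ)|) hdisc
      simp only [Int.cast_mul, Int.cast_pow, Int.cast_sub, Int.cast_natCast, abs_mul, abs_pow] at h2
      rw [Nat.abs_cast, Nat.abs_cast] at h2
      have h3 : |(P : ℝ) - Q| = d := by
        rw [hd, Nat.cast_natAbs]
        push_cast
        rfl
      rw [h3] at h2
      norm_num at h2
      exact h2
    have hΔR : 0 < |(W.Δ : ℝ)| := abs_pos.mpr (by exact_mod_cast hΔ)
    have h4 := congrArg Real.log h1
    rw [Real.log_mul (by norm_num) hΔR.ne', Real.log_pow, Real.log_mul (by positivity) hdR.ne',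
      Real.log_mul hPR.ne' hQR.ne', show (256 : ℝ) = 2 ^ 8 by norm_num, Real.log_pow] at h4
    push_cast at h4
    linarith
  refine ⟨W, hΔ, hc, ?_, ?_, ?_⟩
  · linarith
  · rw [hΔlog, le_div_iff₀ (by norm_num)]
    linarith
  · have h1 := height_ne hP0 hQ0 hne hcop
    rw [← hd, ← hcond] at h1
    refine le_trans (Real.log_le_log ?_ hdk) h1
    have : (0 : ℝ) < k := by exact_mod_cast (by omega : 0 < k)
    positivity

end Pool.Agent.TH871.Sz
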