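import Pool.Agent.TH871.Sz.Core
import Pool.Agent.TH871.Sz.LatG
import Pool.Agent.TH871.L1.Const

/-! Semistable elliptic curves of large Szpiro ratio: the optimisation. -/

open Finset Nat Filter Topology

namespace Pool.Agent.TH871.Sz

open Pool.Agent.H390R2 Pool.Agent.TH871.L1

theorem szpiro {ε K κ : ℝ} (hε : 0 < ε) (hε1 : ε ≤ 1 / 4) (hK0 : 0 ≤ K) (hκ : 0 < κ)
    (hrel : ∃ (n0 : ℕ) (B : ℝ), ∀ (ι : Type) [Fintype ι] (G : Type) [AddCommGroup G] [Fintype G]
      (w : ι → G), n0 ≤ Fintype.card ι → B * Fintype.card ι ≤ Real.log (Fintype.card G) →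
      ∃ e : ι → ℤ, e ≠ 0 ∧ ∑ i, e i • w i = 0 ∧
        ∑ i, |(e i : ℝ)| ≤ κ * Fintype.card ι *
          Real.exp (Real.log (Fintype.card G) / Fintype.card ι))
    (hK : K ^ 2 * (1 + 2 * ε) * Real.exp ε * (κ * Real.exp 2 / 2) ≤
      (2 - ε) ^ 4 * Real.exp 1 * (1 - ε)) (X0 : ℝ) :
    ∃ W : WeierstrassCurve ℤ, W.Δ ≠ 0 ∧ IsCoprime W.c₄ W.Δ ∧ X0 < Real.log (cond W) ∧
      K * √(Real.log (cond W)) / Real.log (Real.log (cond W)) <
        (Real.log |(W.Δ : ℝ)| - 6 * Real.log (cond W)) / 6 := by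
  obtain ⟨n0, B0, hrel⟩ := hrel
  obtain ⟨D, hD0, hD⟩ := ev_II
  set C0 : ℝ := κ * Real.exp 2 / 2 with hC0
  have hC00 : 0 < C0 := by positivity
  -- lower bound required for the conductor
  set Y0 : ℝ := max (Real.exp 2) (X0 + 1) with hY0
  set B : ℝ := max (Real.exp (3000 * (1 + Y0) ^ 6) + 1) (max (Real.exp 2) n0) with hB
  have hBn : (n0 : ℝ) ≤ B := (le_max_right _ _).trans (le_max_right _ _)
  have hBe : Real.exp 2 ≤ B := (le_max_left _ _).trans (le_max_right _ _)
  have hBY : Real.exp (3000 * (1 + Y0) ^ 6) + 1 ≤ B := le_max_left _ _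
  have hB0 : 0 < B := lt_of_lt_of_le (Real.exp_pos 2) hBe
  have he7 : (7 : ℝ) ≤ Real.exp 2 := by
    have h1 : Real.exp 2 = Real.exp 1 * Real.exp 1 := by rw [← Real.exp_add]; norm_num
    have h2 : (2.7 : ℝ) ≤ Real.exp 1 := by linarith [Real.exp_one_gt_d9]
    rw [h1]
    nlinarith
  set c1 : ℝ := C0 * Real.exp (-D) / 2 with hc1
  have hc10 : 0 < c1 := by positivity
  obtain ⟨b9, hb9⟩ := exists_nat_ge (1 / (4 * ε * c1))
  obtain ⟨b8, hb8⟩ := exists_nat_ge (κ * Real.exp 3)
  have hev : ∀ᶠ m : ℕ in atTop,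
      45 ≤ m ∧ b9 ≤ m ∧ 1 ≤ Real.log m ∧ -Real.log c1 / ε ≤ Real.log m ∧
      (m : ℝ) / (2 * Real.log m) ≤ Nat.primeCounting m ∧
      II m ≤ D * Nat.primeCounting m ∧
      B0 + D ≤ Real.log m ∧
      2 * B * Real.log m ^ 1 ≤ 1 * m ∧
      4 * Real.log m ^ 1 ≤ ε * m ∧
      40 * Real.log m ^ 2 ≤ ε * m ∧ b8 ≤ m := by
    filter_upwards [eventually_ge_atTop 45, eventually_ge_atTop b9, ev_log 1,
      ev_log (-Real.log c1 / ε), ev_pi, hD, ev_log (B0 + D),
      ev_pow 1 (a := 1) one_pos (2 * B), ev_pow 1 hε 4, ev_pow 2 hε 40, eventually_ge_atTop b8]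
      with m h1 h2 h3 h4 h5 h6 h7 h8 h9 h10 h11
    exact ⟨h1, h2, h3, h4, h5, h6, h7, h8, h9, h10, h11⟩
  obtain ⟨Y, hY⟩ := eventually_atTop.mp hev
  obtain ⟨m, hmY, hgood⟩ := exists_good hε Y
  obtain ⟨h1, h2, h3, h4, h5, h6, h7, h8, h9, h10, h11⟩ := hY m hmY
  clear hev hY hD hmY
  have hm45 : (45 : ℝ) ≤ m := by exact_mod_cast h1
  have hm0 : (0 : ℝ) < m := by linarith
  set L : ℝ := Real.log m with hL
  have hL0 : 0 < L := by linarith
  have hLm : L ≤ m := (Real.log_le_sub_one_of_pos hm0).trans (by linarith)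
  set n : ℝ := (Nat.primeCounting m : ℝ) with hn
  have hn0 : 0 < n := lt_of_lt_of_le (by positivity) h5
  have hnm : n ≤ m := by
    rw [hn, ← Nat.primesLE_card_eq_primeCounting]
    have : (primesLE m).card ≤ m := by
      have h := Finset.card_le_card (s := primesLE m) (t := Finset.Icc 1 m) (fun p hp => by
        rw [Finset.mem_Icc]
        exact ⟨(prime_of_mem_primesLE hp).one_le, le_of_mem_primesLE hp⟩)
      simpa using h
    exact_mod_cast this
  rw [pow_one] at h8 h9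
  have hnL : (m : ℝ) / 2 ≤ n * L := by
    rw [div_le_iff₀ (by positivity)] at h5
    linarith
  have hnB : B ≤ n := by
    refine le_trans ?_ h5
    rw [le_div_iff₀ (by positivity)]
    linarith
  have hεn : 2 ≤ ε * n := by
    have : 2 ≤ ε * (m / (2 * L)) := by
      rw [mul_div_assoc', le_div_iff₀ (by positivity)]; linarith
    exact this.trans (by gcongr)
  have hεL : 20 * L ≤ ε * n := by
    have : 20 * L ≤ ε * (m / (2 * L)) := by
      rw [mul_div_assoc', le_div_iff₀ (by positivity)]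
      calc 20 * L * (2 * L) = 40 * L ^ 2 := by ring
        _ ≤ ε * m := h10
    exact this.trans (by gcongr)
  set J : ℝ := II m / n with hJ
  have hnJ : n * J = II m := by rw [hJ]; field_simp
  have hJD : J ≤ D := by
    rw [hJ, div_le_iff₀ hn0]; exact h6
  have hII0 : 0 < II m := lt_of_lt_of_le (by
    have : 0 < 1 - ε := by linarith
    positivity) hgood
  have hJ0 : 0 < J := by positivity
  set θ : ℝ := ∑ p ∈ primesLE m, Real.log p with hθ
  have hθJ : θ = n * L - n * J := by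
    rw [hnJ, II_eq (by omega)]; ring
  have hθ0 : 0 ≤ θ := Finset.sum_nonneg fun p hp => Real.log_natCast_nonneg p
  have hl2 : (0 : ℝ) < Real.log 2 := Real.log_pos one_lt_two
  have hl2u : Real.log 2 < 0.7 := by linarith [Real.log_two_lt_d9]
  have hcard : (Fintype.card {p // p ∈ primesLE m} : ℝ) = n := by
    rw [hn, ← Nat.primesLE_card_eq_primeCounting, Fintype.card_coe]
  have hlogp' : ∀ p : {p // p ∈ primesLE m}, Real.log (p : ℕ) ≤ L := fun p =>
    Real.log_le_log (by exact_mod_cast (prime_of_mem_primesLE p.2).pos)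
      (by exact_mod_cast le_of_mem_primesLE p.2)
  -- the exponent of two
  set k : ℕ := ⌈(θ + 2 * n) / Real.log 2⌉₊ with hk
  have hk1 : θ + 2 * n ≤ k * Real.log 2 := by
    have := Nat.le_ceil ((θ + 2 * n) / Real.log 2)
    rwa [div_le_iff₀ hl2] at this
  have hk2 : (k - 1) * Real.log 2 < θ + 2 * n := by
    have := Nat.ceil_lt_add_one (show 0 ≤ (θ + 2 * n) / Real.log 2 by positivity)
    rw [← hk, ← sub_lt_iff_lt_add, lt_div_iff₀ hl2] at this
    exact this
  have hn7 : 7 ≤ n := he7.trans (hBe.trans hnB)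
  have hk5 : 5 ≤ k := by
    by_contra hcon
    push Not at hcon
    have h12 : (k : ℝ) ≤ 4 := by exact_mod_cast (by omega : k ≤ 4)
    have : (k : ℝ) * Real.log 2 ≤ 4 * 0.7 := mul_le_mul h12 hl2u.le hl2.le (by norm_num)
    linarith
  -- the length
  set A : ℝ := C0 * Real.exp ε * (n * m * L * Real.exp (-J)) with hA
  have hA0 : 0 < A := by positivity
  set lam : ℝ := 2 * A with hlam
  have hAlow : c1 * (m : ℝ) ^ 2 ≤ A := by
    have h23 : Real.exp (-D) ≤ Real.exp (-J) := Real.exp_le_exp.mpr (by linarith)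
    have h24 : 1 ≤ Real.exp ε := Real.one_le_exp (by positivity)
    calc c1 * (m : ℝ) ^ 2 = C0 * 1 * ((m / 2) * m * Real.exp (-D)) := by rw [hc1]; ring
      _ ≤ C0 * Real.exp ε * ((n * L) * m * Real.exp (-J)) := by gcongr
      _ = A := by rw [hA]; ring
  have hεA : 1 / 4 ≤ ε * A := by
    have h26 : 1 / (4 * ε * c1) ≤ m := hb9.trans (by exact_mod_cast h2)
    rw [div_le_iff₀ (by positivity)] at h26
    have h27 : (m : ℝ) ≤ (m : ℝ) ^ 2 := by nlinarith
    calc (1 / 4 : ℝ) ≤ (m * (4 * ε * c1)) / 4 := by linarith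
      _ = ε * (c1 * m) := by ring
      _ ≤ ε * (c1 * (m : ℝ) ^ 2) := by gcongr
      _ ≤ ε * A := by gcongr
  have hA1 : 1 ≤ A := by nlinarith
  have hlam1 : 1 ≤ lam := by rw [hlam]; linarith
  have hlamm : lam ≤ (m : ℝ) ^ 4 := by
    have h20 : Real.exp 2 * Real.exp ε ≤ Real.exp 3 := by
      rw [← Real.exp_add]; exact Real.exp_le_exp.mpr (by linarith)
    have h21 : Real.exp (-J) ≤ 1 := Real.exp_le_one_iff.mpr (by linarith)
    have h22 : κ * Real.exp 3 ≤ m := hb8.trans (by exact_mod_cast h11)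
    calc lam = κ * (Real.exp 2 * Real.exp ε) * (n * m * L * Real.exp (-J)) := by
          rw [hlam, hA, hC0]; ring
      _ ≤ κ * Real.exp 3 * (m * m * m * 1) := by gcongr
      _ ≤ m * (m * m * m * 1) := by gcongr
      _ = (m : ℝ) ^ 4 := by ring
  -- the auxiliary modulus
  set M : ℕ := ⌈2 * lam ^ 2⌉₊ + 1 with hM
  have hM0 : 0 < M := by omega
  have hM1 : 2 * lam ^ 2 < M := by
    have := Nat.le_ceil (2 * lam ^ 2)
    rw [hM]; push_cast; linarith
  have hM2 : (M : ℝ) ≤ 2 * lam ^ 2 + 2 := by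
    have := Nat.ceil_lt_add_one (show 0 ≤ 2 * lam ^ 2 by positivity)
    rw [hM]; push_cast; linarith
  have hM' : (0 : ℝ) < M := by exact_mod_cast hM0
  have hlogM : Real.log M ≤ 9 * L := by
    have h12 : (M : ℝ) ≤ (m : ℝ) ^ 9 := by
      have h13 : lam ^ 2 ≤ ((m : ℝ) ^ 4) ^ 2 := pow_le_pow_left₀ (by linarith) hlamm 2
      have h14 : (1 : ℝ) ≤ ((m : ℝ) ^ 4) ^ 2 := one_le_pow₀ (one_le_pow₀ (by linarith))
      calc (M : ℝ) ≤ 2 * ((m : ℝ) ^ 4) ^ 2 + 2 * ((m : ℝ) ^ 4) ^ 2 := by linarith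
        _ = 4 * (m : ℝ) ^ 8 := by ring
        _ ≤ m * (m : ℝ) ^ 8 := by gcongr; linarith
        _ = (m : ℝ) ^ 9 := by ring
    have := Real.log_le_log hM' h12
    rwa [Real.log_pow] at this
  have hlogM0 : 0 ≤ Real.log M := Real.log_natCast_nonneg _
  have : NeZero M := ⟨hM0.ne'⟩
  have hcG : Real.log (Fintype.card (GG k M)) = (k - 1) * Real.log 2 + 2 * Real.log M := by
    rw [card_GG (by omega : 1 ≤ k)]
    push_cast
    rw [Real.log_mul (by positivity) (by positivity), Real.log_pow, Real.log_mul hM'.ne' hM'.ne',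
      Nat.cast_sub (by omega)]
    push_cast; ring
  have hexpN : Real.exp (Real.log (Fintype.card (GG k M)) / n) ≤
      m * Real.exp (-J) * Real.exp 2 * Real.exp ε := by
    have h12 : Real.log (Fintype.card (GG k M)) / n ≤ L + -J + 2 + ε := by
      rw [div_le_iff₀ hn0, hcG]
      calc (k - 1) * Real.log 2 + 2 * Real.log M ≤ (θ + 2 * n) + 2 * (9 * L) := by linarith
        _ ≤ θ + 2 * n + ε * n := by linarith
        _ = (L + -J + 2 + ε) * n := by rw [hθJ]; ring
    have h13 := Real.exp_le_exp.mpr h12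
    rw [Real.exp_add, Real.exp_add, Real.exp_add, hL, Real.exp_log hm0] at h13
    exact h13
  obtain ⟨P, Q, hP0, hQ0, hne, hcop, hP2, hPQ, hPp, hQp, hsum, hdiff⟩ :=
    exists_pair (m := m) (k := k) (M := M) (lam := lam) hM0 hlam1 hM1 (by
      intro w
      obtain ⟨e, he, hdvd, hle⟩ := hrel {p // p ∈ primesLE m} (GG k M) w
        (by
          have : (n0 : ℝ) ≤ (Fintype.card {p // p ∈ primesLE m} : ℝ) := by
            rw [hcard]; exact hBn.trans hnB
          exact_mod_cast this) (by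
          rw [hcard, hcG]
          have h12 : B0 + J ≤ L := by linarith
          have h13 := mul_le_mul_of_nonneg_right h12 hn0.le
          have h14 : θ + 2 * n - 1 ≤ (k - 1) * Real.log 2 := by linarith
          have h15 : (B0 + J) * n = B0 * n + n * J := by ring
          have h16 : θ = n * L - n * J := hθJ
          linarith)
      refine ⟨e, he, hdvd, ?_⟩
      rw [hcard] at hle
      calc ∑ i : {p // p ∈ primesLE m}, |(e i : ℝ)| * Real.log (i : ℕ)
          ≤ ∑ i : {p // p ∈ primesLE m}, |(e i : ℝ)| * L :=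
            Finset.sum_le_sum fun i _ => mul_le_mul_of_nonneg_left (hlogp' i) (abs_nonneg _)
        _ = (∑ i : {p // p ∈ primesLE m}, |(e i : ℝ)|) * L := by rw [Finset.sum_mul]
        _ ≤ (κ * n * Real.exp (Real.log (Fintype.card (GG k M)) / n)) * L := by gcongr
        _ ≤ (κ * n * (m * Real.exp (-J) * Real.exp 2 * Real.exp ε)) * L := by gcongr
        _ = lam := by rw [hlam, hA, hC0]; ring)
  obtain ⟨W, hΔ, hc4, hup, hexc, hlow⟩ := curve (m := m) (lam := lam) (by omega) hk5 hP0 hQ0 hne hcop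
    hP2 hPQ hPp hQp hsum hdiff (by rw [← hθ]; linarith)
  rw [← hθ] at hexc
  set x : ℝ := Real.log (cond W) with hx
  have hx0 : 0 ≤ x := Real.log_natCast_nonneg _
  set y : ℝ := (Real.log |(W.Δ : ℝ)| - 6 * x) / 6 with hy
  have hyn : (2 - ε) * n < y ∨ (2 - ε) * n ≤ y := by
    right
    linarith
  have hyn' : (2 - ε) * n ≤ y := by rcases hyn with h | h <;> linarith
  -- the conductor is large
  have hxY : Y0 < x := by
    by_contra hcon
    push Not at hcon
    have h12 : (1 + x) ^ 6 ≤ (1 + Y0) ^ 6 := pow_le_pow_left₀ (by linarith) (by linarith) 6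
    have h13 : Real.log (k * Real.log 2) ≤ 3000 * (1 + Y0) ^ 6 := by linarith
    have h14 : (0 : ℝ) < k * Real.log 2 := by
      have : (0 : ℝ) < k := by exact_mod_cast (by omega : 0 < k)
      positivity
    rw [Real.log_le_iff_le_exp h14] at h13
    linarith
  have hxe : Real.exp 2 ≤ x := (le_max_left _ _).trans hxY.le
  have hxX : X0 < x := by
    have : X0 + 1 ≤ Y0 := le_max_right _ _
    linarith
  -- the upper bound
  set X1 : ℝ := (1 + 2 * ε) * A with hX1
  have hxX1 : x ≤ X1 := by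
    rw [hX1]
    have : (lam + 1) / 2 = A + 1 / 2 := by rw [hlam]; ring
    linarith
  have hX1log : (2 - ε) * L ≤ Real.log X1 := by
    have h28 : c1 * (m : ℝ) ^ 2 ≤ X1 := by
      rw [hX1]
      have h31 : 0 ≤ ε * A := by positivity
      linarith
    have h29 := Real.log_le_log (by positivity) h28
    rw [Real.log_mul hc10.ne' (by positivity), Real.log_pow] at h29
    rw [div_le_iff₀ hε] at h4
    push_cast at h29
    linarith
  refine ⟨W, hΔ, hc4, hxX, ?_⟩
  have hopt := opt' (X1 := X1) (J := J) (K := K) hε hε1 hC00 hK hn0 hm0 hL0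
    (by rw [hnJ]; exact hgood) (by rw [hX1])
  have h2ε : 0 < 2 - ε := by linarith
  have hyn2 : (2 - ε) * n < y := by
    have h30 : k * Real.log 2 - θ - 2 ≤ y := hexc
    linarith
  refine lt_of_le_of_lt ?_ hyn2
  calc K * √x / Real.log x
      = K * (√x / Real.log x) := by ring
    _ ≤ K * (√X1 / Real.log X1) := by
        gcongr ?_ * ?_
        exact sqrt_div_log hxe hxX1
    _ ≤ K * (√X1 / ((2 - ε) * L)) := by gcongr
    _ = K * √X1 / ((2 - ε) * L) := by ring
    _ ≤ (2 - ε) * n := by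
        rw [div_le_iff₀ (by positivity)]
        linarith

end Pool.Agent.TH871.Sz
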